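import Pool.Agent.H543R3.PC.Final

/-!
# The Borel complexity of: `TFNP` has a complete problem
-/

namespace Pool.Agent.Results.MP_0a7732_lc.BorelComplexity

open Pool.Agent.H628R3.RO

/-- The set of oracles relative to which there is a complete total `NP` search problem is
`Σ⁰₄`-complete. -/
theorem result : H556R2.Sigma04Complete {A : Oracle | ∃ R : List Bool → List Bool → Prop, IsTFNP A R ∧
    ∀ S, IsTFNP A S → RedSearch A S R} :=
  Pool.Agent.H543R3.PC.tfnp_complete

end Pool.Agent.Results.MP_0a7732_lc.BorelComplexity
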