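import Pool.Agent.H628R3.RO.F3

set_option autoImplicit false

/-!
# Relative to a random oracle, there is no complete total `NP` search problem
-/

namespace Pool.Agent.Results.MP_0a7732_lc.RandomOracleNoComplete

open Pool.Agent.H628R3.RO

/-- For almost every oracle `A`, no total `NP` search problem relative to `A` is complete: for
each of them there is another one that does not reduce to it. -/
theorem result : ∀ᵐ A ∂randomOracle, ∀ S, IsTFNP A S →
    ∃ R, IsTFNP A R ∧ ¬ RedSearch A R S :=
  tfnp_main

end Pool.Agent.Results.MP_0a7732_lc.RandomOracleNoComplete
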